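import Mathlib
import Pool.Agent.H32.AV.Main

/-!
# Every mad family of subspaces with two members has cardinality at least `non(M)`
-/

open Cardinal

namespace Pool.Agent.Results.MP_54c972_lc.NonMeagerBound

/-- Two linear subspaces are almost disjoint if their intersection is finite-dimensional. -/
def AlmostDisj {F : Type} [Field F] {E : Type} [AddCommGroup E] [Module F E]
    (X Y : Submodule F E) : Prop :=
  FiniteDimensional F ↥(X ⊓ Y)

/-- An almost disjoint family of subspaces: a set of infinite-dimensional linear subspaces any two
distinct members of which are almost disjoint. -/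
def IsADFamily {F : Type} [Field F] {E : Type} [AddCommGroup E] [Module F E]
    (A : Set (Submodule F E)) : Prop :=
  (∀ X ∈ A, ¬ FiniteDimensional F X) ∧ ∀ X ∈ A, ∀ Y ∈ A, X ≠ Y → AlmostDisj X Y

/-- A mad family of subspaces: an almost disjoint family which no almost disjoint family properly
contains. -/
def IsMadFamily {F : Type} [Field F] {E : Type} [AddCommGroup E] [Module F E]
    (A : Set (Submodule F E)) : Prop :=
  IsADFamily A ∧ ∀ B : Set (Submodule F E), IsADFamily B → ¬ A ⊂ B

/-- The cardinal `non(M)`: the least cardinality of a nonmeager subset of the Cantor space. -/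
noncomputable def nonM : Cardinal :=
  sInf {κ | ∃ S : Set (ℕ → Bool), ¬ IsMeagre S ∧ #S = κ}

/-- Every mad family of infinite-dimensional subspaces of a vector space, with at least two
members, has cardinality at least `non(M)`. -/
theorem result (F : Type) [Field F] (E : Type) [AddCommGroup E] [Module F E]
    (A : Set (Submodule F E)) (hmad : IsMadFamily A) (h2 : A.Nontrivial) :
    nonM ≤ #A := by
  obtain ⟨⟨hinf, had⟩, hmax⟩ := hmad
  have hmax' : ∀ X : Submodule F E, ¬ FiniteDimensional F X →
      ∃ B ∈ A, ¬ FiniteDimensional F ↥(X ⊓ B) := by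
    intro X hX
    by_contra hcon
    push Not at hcon
    have hXA : X ∉ A := fun hXA => hX (by
      have := hcon X hXA
      rwa [inf_idem] at this)
    apply hmax (insert X A)
    · refine ⟨?_, ?_⟩
      · intro Y hY
        rcases Set.mem_insert_iff.1 hY with rfl | hY
        · exact hX
        · exact hinf Y hY
      · intro Y hY Z hZ hYZ
        have hsymm : ∀ P Q : Submodule F E, FiniteDimensional F ↥(P ⊓ Q) → AlmostDisj Q P := by
          intro P Q h
          unfold AlmostDisj
          rwa [inf_comm]
        rcases Set.mem_insert_iff.1 hY with hYX | hYA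
        · rcases Set.mem_insert_iff.1 hZ with hZX | hZA
          · exact absurd (hYX.trans hZX.symm) hYZ
          · rw [hYX]
            exact hcon Z hZA
        · rcases Set.mem_insert_iff.1 hZ with hZX | hZA
          · rw [hZX]
            exact hsymm X Y (hcon Y hYA)
          · exact had Y hYA Z hZA hYZ
    · exact Set.ssubset_insert hXA
  obtain ⟨S, hS, hle⟩ := Pool.H32.AV.exists_nonmeagre_le A hinf had hmax' h2
  have hmem : #S ∈ {κ : Cardinal | ∃ S : Set (ℕ → Bool), ¬ IsMeagre S ∧ #S = κ} := ⟨S, hS, rfl⟩
  exact (csInf_le' hmem).trans hle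

end Pool.Agent.Results.MP_54c972_lc.NonMeagerBound
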